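import Pool.Agent.V11293.SM.Final

set_option autoImplicit false

namespace Pool.Agent.Results.MP_231d99_co.BoundedGaps

universe u

variable {X : Type u}

/-- The word `u` occurs in the infinite word `x` (positions `0, 1, 2, …`) at position `n`. -/
def OccursAt (x : ℕ → X) (u : List X) (n : ℕ) : Prop :=
  ∀ (i : ℕ) (h : i < u.length), u[i] = x (n + i)

/-- `u` is a factor of `x`: a nonempty word that occurs in `x`. -/
def IsFactor (x : ℕ → X) (u : List X) : Prop := u ≠ [] ∧ ∃ n, OccursAt x u n

/-- The position where the first occurrence of `u` in `x` starts. -/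
noncomputable def A (x : ℕ → X) (u : List X) : ℕ := sInf {n | OccursAt x u n}

/-- The first position after the first occurrence of `u` in `x`. -/
noncomputable def B (x : ℕ → X) (u : List X) : ℕ := A x u + u.length

/-- `x` is eventually periodic. -/
def EventuallyPeriodic (x : ℕ → X) : Prop := ∃ p N : ℕ, 1 ≤ p ∧ ∀ i, N ≤ i → x (i + p) = x i

/-- The sequence `u 0, u 1, …` of factors of `x` is `C`-good for the colouring `χ`: the first
occurrences follow each other with gaps at most `C`, and all the words
`u k₁ ++ u k₂ ++ ⋯ ++ u kₘ` with `m ≥ 1` and `k₁ < k₂ < ⋯ < kₘ` have the same colour. -/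
def Good {K : Type} (x : ℕ → X) (χ : List X → K) (C : ℕ) (u : ℕ → List X) : Prop :=
  (∀ n, IsFactor x (u n)) ∧
  (∀ n, B x (u n) ≤ A x (u (n + 1)) ∧ A x (u (n + 1)) ≤ B x (u n) + C) ∧
  ∃ c : K, ∀ k : List ℕ, k ≠ [] → k.Pairwise (· < ·) → χ ((k.map u).flatten) = c

open Pool.Agent.V11293.SM

/-- For every infinite word `x` that is not eventually periodic there is a finite colouring of the
finite words such that for every `C` no sequence of factors of `x` is `C`-good. -/
theorem result (x : ℕ → X) (hx : ¬ EventuallyPeriodic x) :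
    ∃ (K : Type) (_ : Finite K) (χ : List X → K), ∀ (C : ℕ) (u : ℕ → List X),
      ¬ Good x χ C u := by
  classical
  have hx' : ∀ p : ℕ, 1 ≤ p → ∀ N, ∃ i, N ≤ i ∧ x (i + p) ≠ x i := by
    intro p hp N
    by_contra hcon
    push Not at hcon
    exact hx ⟨p, N, hp, hcon⟩
  obtain ⟨N, h0, hN, hF⟩ := exists_thresholds hx'
  let χ : List X → Option (Fin 3 × Bool × Bool) := fun w =>
    if IsFactor x w then
      some (⟨scale N (fin x w) % 3, Nat.mod_lt _ (by norm_num)⟩,
        decide (fin x (w.drop (cut N (fin x w))) = fin x w),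
        decide (∀ t, 2 * t < fst x w → x (fst x w - 1 - t) = x (fin x w - 1 - t)))
    else none
  refine ⟨Option (Fin 3 × Bool × Bool), inferInstance, χ, ?_⟩
  rintro C u ⟨hfac, hgap, c, hc⟩
  have hfactor : ∀ k : List ℕ, k ≠ [] → k.Pairwise (· < ·) → IsFactor x (k.map u).flatten := by
    intro k hk hk'
    by_contra hcon
    have h1 := hc k hk hk'
    have h2 := hc [0] (by simp) (List.pairwise_singleton _ _)
    have h3 : ([0].map u).flatten = u 0 := by simp
    rw [h3] at h2
    simp only [χ, if_neg hcon] at h1
    simp only [χ, if_pos (hfac 0)] at h2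
    rw [← h1] at h2
    exact absurd h2 (by simp)
  have hcol : ∀ k l : List ℕ, k ≠ [] → k.Pairwise (· < ·) → l ≠ [] → l.Pairwise (· < ·) →
      scale N (fin x (k.map u).flatten) % 3 = scale N (fin x (l.map u).flatten) % 3 ∧
      (fin x ((k.map u).flatten.drop (cut N (fin x (k.map u).flatten))) =
          fin x (k.map u).flatten ↔
        fin x ((l.map u).flatten.drop (cut N (fin x (l.map u).flatten))) =
          fin x (l.map u).flatten) ∧
      ((∀ t, 2 * t < fst x (k.map u).flatten →
        x (fst x (k.map u).flatten - 1 - t) = x (fin x (k.map u).flatten - 1 - t)) ↔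
      (∀ t, 2 * t < fst x (l.map u).flatten →
        x (fst x (l.map u).flatten - 1 - t) = x (fin x (l.map u).flatten - 1 - t))) := by
    intro k l hk hk' hl hl'
    have h1 := hc k hk hk'
    have h2 := hc l hl hl'
    rw [← h2] at h1
    simp only [χ, if_pos (hfactor k hk hk'), if_pos (hfactor l hl hl')] at h1
    have h3 := Option.some.inj h1
    rw [Prod.mk.injEq, Prod.mk.injEq, Fin.mk.injEq, decide_eq_decide, decide_eq_decide] at h3
    exact h3
  have hS : Seq x C N u :=
    { ne := fun n => (hfac n).1
      le := fun n => (hgap n).1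
      gap := fun n => (hgap n).2
      fac := fun k hk hk' => (hfactor k hk hk').2
      sc := fun k l hk hk' hl hl' => (hcol k l hk hk' hl hl').1
      dr := fun k l hk hk' hl hl' => (hcol k l hk hk' hl hl').2.1
      su := fun k l hk hk' hl hl' => (hcol k l hk hk' hl hl').2.2 }
  by_cases hinf : ∀ m, ∃ i, m ≤ i ∧ fin x (u i) < fst x (u (i + 1))
  · exact hS.no_gaps h0 hN hF hinf
  · push Not at hinf
    obtain ⟨n0, hn0⟩ := hinf
    have hper := hS.periodic h0 hN hF n0 (fun i hi => le_antisymm (hn0 i hi) (hS.le i))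
    exact hx ⟨(u n0).length, fst x (u n0), hS.len n0, hper⟩

end Pool.Agent.Results.MP_231d99_co.BoundedGaps
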